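import Pool.Agent.Helper57_C2.Stmts
import Pool.Agent.Helper24_K9.Duc
import Pool.Agent.Helper60_PP.OrvA
import Pool.Agent.Helper75_PP.RelC

/-!
# Squad C2, rows INE and EXB (helper11): the blocks of the centralisers

Text: `AWC_C2.md`.
-/

open scoped BigOperators

set_option linter.unusedSectionVars false

noncomputable section

namespace Pool.Agent.PP.C2.H11

open Pool.Agent.Helper51_AWC Pool.Agent.Helper79_WRA Pool.Agent.PP Pool.Agent.PP.KF
open Pool.Agent.PP.K9
open Pool.Agent.PP.K9.H97 (Ix Bx)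

section gen

variable {F G : Type} [Field F] [Group G] [Finite G] {ℓ : ℕ}

theorem _root_.Pool.Agent.PP.C2.Bk.bx {C : Subgroup G} {β : G → F} (h : Bk C β) : Bx C β :=
  ⟨h.off, h.blk⟩

theorem bk_of_bx {C : Subgroup G} {β : G → F} (h : Bx C β) : Bk C β :=
  ⟨h.supp, h.blk⟩

theorem ix_inv {C V : Subgroup G} (hVC : V ≤ C) {a : G → F} (ha : Ix C a) : H66.Inv V a := by
  intro p hp t
  exact (H75.cj_eq_iff _ _).1 (ha.inv (hVC hp)) t

/-- the Brauer map on the centre of `F C`, `V ≤ C`, `C(V) ≤ C` -/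
theorem br_ix (hF : GoodF ℓ F) {C V : Subgroup G} (hV : IsPGroup ℓ V) (hVC : V ≤ C)
    (hCC : Subgroup.centralizer (V : Set G) ≤ C) {a : G → F} (ha : Ix C a) :
    Ix (Subgroup.centralizer (V : Set G)) (br V a) := by
  have hs : ∀ x, x ∉ Subgroup.centralizer (V : Set G) → br V a x = 0 :=
    fun x hx => H66.br_of_not_mem hx
  refine ⟨hs, ?_, ?_⟩
  · intro x y
    show br V a ((y : G) * x * (y : G)⁻¹) = br V a x
    have h2 : (y : G) * x * (y : G)⁻¹ ∈ Subgroup.centralizer (V : Set G) := (y * x * y⁻¹).2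
    rw [H66.br_of_mem x.2, H66.br_of_mem h2]
    exact ha.idem.1 ⟨x, hCC x.2⟩ ⟨y, hCC y.2⟩
  · rw [← H75.mulF_res _ _ hs, ← H66.br_mulF hF hV (ix_inv hVC ha) (ix_inv hVC ha), ha.mul]

theorem ix_top {e : G → F} (he : IsIdem e) : Ix (⊤ : Subgroup G) e := by
  refine ⟨fun x hx => absurd (Subgroup.mem_top x) hx, ?_, ?_⟩
  · intro x y
    exact he.1 _ _
  · rw [← H75.mulF_res _ _ (fun x hx => absurd (Subgroup.mem_top x) hx), he.2]

theorem br_add (V : Subgroup G) (a b : G → F) : br V (a + b) = br V a + br V b := by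
  funext x
  by_cases hx : x ∈ Subgroup.centralizer (V : Set G)
  · rw [H66.br_of_mem hx, Pi.add_apply, Pi.add_apply, H66.br_of_mem hx, H66.br_of_mem hx]
  · rw [H66.br_of_not_mem hx, Pi.add_apply, H66.br_of_not_mem hx, H66.br_of_not_mem hx, add_zero]

theorem ext0_add (K : Subgroup G) (a b : K → F) :
    H75.ext0 K (a + b) = H75.ext0 K a + H75.ext0 K b := by
  funext x
  by_cases hx : x ∈ K
  · have h1 := H75.ext0_apply K (a + b) ⟨x, hx⟩
    have h2 := H75.ext0_apply K a ⟨x, hx⟩
    have h3 := H75.ext0_apply K b ⟨x, hx⟩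
    rw [Pi.add_apply]
    exact h1.trans (congrArg₂ (· + ·) h2.symm h3.symm)
  · rw [H75.ext0_supp K _ x hx, Pi.add_apply, H75.ext0_supp K _ x hx, H75.ext0_supp K _ x hx,
      add_zero]

theorem ext0_zero (K : Subgroup G) : H75.ext0 K (0 : K → F) = 0 := by
  funext x
  by_cases hx : x ∈ K
  · exact H75.ext0_apply K (0 : K → F) ⟨x, hx⟩
  · exact H75.ext0_supp K _ x hx

theorem br_ne {V : Subgroup G} {e : G → F} (h : Gd e V) : br V e ≠ 0 := by
  obtain ⟨g, hg, hne⟩ := h
  intro h0
  apply hne
  have h1 : br V e g = e g := H66.br_of_mem hg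
  rw [← h1, h0]
  rfl

theorem gd_of_br {V : Subgroup G} {e : G → F} (h : br V e ≠ 0) : Gd e V := by
  by_contra hcon
  apply h
  funext x
  by_cases hx : x ∈ Subgroup.centralizer (V : Set G)
  · rw [H66.br_of_mem hx]
    by_contra h2
    exact hcon ⟨x, hx, h2⟩
  · exact H66.br_of_not_mem hx

theorem cen_le {V : Subgroup G} {w : G} (hw : w ∈ V) :
    Subgroup.centralizer (V : Set G) ≤ Cu w := by
  intro x hx
  rw [Subgroup.mem_centralizer_iff] at hx ⊢
  intro y hy
  rw [Set.mem_singleton_iff.1 hy]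
  exact hx w hw

theorem le_cu {V : Subgroup G} (hc : ∀ a ∈ V, ∀ b ∈ V, a * b = b * a) {w : G} (hw : w ∈ V) :
    V ≤ Cu w := by
  intro x hx
  rw [Subgroup.mem_centralizer_iff]
  intro y hy
  rw [Set.mem_singleton_iff.1 hy]
  exact hc w hw x hx

theorem mem_cu {w x : G} : x ∈ Cu w ↔ w * x = x * w := by
  rw [Subgroup.mem_centralizer_iff]
  constructor
  · intro h
    exact h w rfl
  · intro h y hy
    rw [Set.mem_singleton_iff.1 hy]
    exact h

end gen

/-- INE -/
theorem ine : IneStmt := by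
  intro ℓ hfact F _ hF G _ _ e he V hV hc
  have hVC : V ≤ (⊤ : Subgroup G) := le_top
  have hI := br_ix hF hV.pg hVC le_top (ix_top he.1)
  have hne : (fun t : Subgroup.centralizer (V : Set G) => br V e t) ≠ 0 := by
    intro h0
    apply br_ne hV.gd
    exact H75.eq_of_res hI.supp (fun _ _ => rfl) h0
  obtain ⟨b, hb, hb2, -⟩ := H24.exists_blk
    (L := fun a : Subgroup.centralizer (V : Set G) → F => a) rfl (fun _ _ => rfl) hI.idem hne
  have hres : (fun t : Subgroup.centralizer (V : Set G) =>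
      H75.ext0 (Subgroup.centralizer (V : Set G)) b t) = b := funext (H75.ext0_apply _ b)
  have hg : Bk (Subgroup.centralizer (V : Set G))
      (H75.ext0 (Subgroup.centralizer (V : Set G)) b) :=
    ⟨H75.ext0_supp _ b, by rw [hres]; exact hb⟩
  refine ⟨H75.ext0 (Subgroup.centralizer (V : Set G)) b, _, he, hV, hc, hg, ?_, rfl⟩
  apply H75.eq_of_res (H75.mulF_supp _ hI.supp hg.off) hg.off
  rw [H75.mulF_res _ _ hI.supp, hres, hb2]

/-- EXB -/
theorem exb : ExbStmt := by
  intro ℓ hfact F _ hF G _ _ e V γ T hI w hw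
  obtain ⟨hblk, htp, hcomm, hgam, hund, hstb⟩ := hI
  have hVp := htp.pg
  have hVC : V ≤ Cu w := le_cu hcomm hw
  have hCC : Subgroup.centralizer (V : Set G) ≤ Cu w := cen_le hw
  have hγ : Bx (Subgroup.centralizer (V : Set G)) γ := hgam.bx
  have hγ0 : γ ≠ 0 := hγ.ne
  -- if `br V a * γ` is not zero, it is `γ`
  have key : ∀ a : G → F, Ix (Cu w) a → mulF (br V a) γ ≠ 0 → mulF (br V a) γ = γ := by
    intro a ha hne
    have h1 := br_ix hF hVp hVC hCC ha
    rw [h1.comm hγ.ix] at hne ⊢
    rcases hγ.dich' h1 with h | h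
    · exact h
    · exact absurd h hne
  -- existence
  have hone : mulF (br V (H75.ext0 (Cu w) (dl F (1 : Cu w)))) γ = γ := by
    have h1 : br V (H75.ext0 (Cu w) (dl F (1 : Cu w))) = dl F (1 : G) := by
      classical
      funext x
      by_cases hx : x ∈ Subgroup.centralizer (V : Set G)
      · rw [H66.br_of_mem hx]
        have h2 := H75.ext0_apply (Cu w) (dl F (1 : Cu w)) ⟨x, hCC hx⟩
        refine h2.trans ?_
        unfold dl
        by_cases h3 : x = 1
        · rw [if_pos h3, if_pos (Subtype.ext h3)]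
        · rw [if_neg h3, if_neg (fun h4 => h3 (congrArg Subtype.val h4))]
      · rw [H66.br_of_not_mem hx]
        unfold dl
        rw [if_neg]
        intro h3
        apply hx
        rw [h3]
        exact Subgroup.one_mem _
    rw [h1, H46.one_mulF]
  obtain ⟨b, hb, -, hb3⟩ := H24.exists_blk
    (L := fun a : Cu w → F => mulF (br V (H75.ext0 (Cu w) a)) γ)
    (by
      show mulF (br V (H75.ext0 (Cu w) (0 : Cu w → F))) γ = 0
      rw [ext0_zero, H66.br_zero, H75.mulF_zero_left])
    (fun a b => by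
      show mulF (br V (H75.ext0 (Cu w) (a + b))) γ = _
      rw [ext0_add, br_add, H24.mulF_add_l])
    H46.isIdem_one (by
      show mulF (br V (H75.ext0 (Cu w) (dl F (1 : Cu w)))) γ ≠ 0
      rw [hone]
      exact hγ0)
  obtain ⟨β, hβdef⟩ : ∃ β : G → F, β = H75.ext0 (Cu w) b := ⟨_, rfl⟩
  have hβs : ∀ x, x ∉ Cu w → β x = 0 := by
    rw [hβdef]
    exact H75.ext0_supp _ b
  have hβr : (fun t : Cu w => β t) = b := by
    rw [hβdef]
    exact funext (H75.ext0_apply _ b)
  have hβ : Bx (Cu w) β := ⟨hβs, by rw [hβr]; exact hb⟩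
  have hβγ : mulF (br V β) γ = γ := by
    apply key β hβ.ix
    rw [hβdef]
    exact hb3
  have hβ1 : br V β ≠ 0 := by
    intro h0
    rw [h0, H75.mulF_zero_left] at hβγ
    exact hγ0 hβγ.symm
  have hAb : Ab V γ w β := ⟨bk_of_bx hβ, hβγ⟩
  -- the restriction of `e`
  have hzp : IsPGroup ℓ (Subgroup.zpowers w) :=
    hVp.to_le (Subgroup.zpowers_le.2 hw)
  have hzc : ∀ x, x ∈ Subgroup.centralizer (Subgroup.zpowers w : Set G) ↔ x ∈ Cu w := by
    intro x
    constructor
    · intro h
      rw [mem_cu]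
      exact (Subgroup.mem_centralizer_iff.1 h) w (Subgroup.mem_zpowers w)
    · intro h
      rw [Subgroup.mem_centralizer_iff]
      intro y hy
      obtain ⟨k, rfl⟩ := Subgroup.mem_zpowers_iff.1 hy
      have h1 : Commute w x := mem_cu.1 h
      exact h1.zpow_left k
  have hzz : Subgroup.centralizer (Subgroup.zpowers w : Set G) = Cu w := by
    ext x
    exact hzc x
  obtain ⟨e', he'def⟩ : ∃ e' : G → F, e' = br (Subgroup.zpowers w) e := ⟨_, rfl⟩
  have he' : Ix (Cu w) e' := by
    rw [he'def, ← hzz]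
    exact br_ix hF hzp le_top le_top (ix_top hblk.1)
  have he'r : (fun t : Cu w => e' t) = fun t : Cu w => e t := by
    funext t
    rw [he'def, H66.br_of_mem ((hzc _).2 t.2)]
  have hbre' : br V e' = br V e := by
    funext x
    by_cases hx : x ∈ Subgroup.centralizer (V : Set G)
    · rw [H66.br_of_mem hx, H66.br_of_mem hx]
      exact congrFun he'r ⟨x, hCC hx⟩
    · rw [H66.br_of_not_mem hx, H66.br_of_not_mem hx]
  have he'β : mulF e' β = β := by
    rw [he'.comm hβ.ix]
    rcases hβ.dich' he' with h | h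
    · exact h
    · exfalso
      apply hγ0
      rw [← he'.comm hβ.ix] at h
      have h1 : mulF (mulF (br V e') (br V β)) γ = 0 := by
        rw [← H66.br_mulF hF hVp (ix_inv hVC he') (ix_inv hVC hβ.ix), h, H66.br_zero,
          H75.mulF_zero_left]
      rw [H20.mulF_assoc, hβγ, hbre', hund] at h1
      exact h1
  have heβ : mulF (fun t : Cu w => e t) (fun t : Cu w => β t) = fun t : Cu w => β t := by
    rw [← he'r, ← H75.mulF_res _ _ he'.supp, he'β]
  refine ⟨β, hAb, heβ, ?_, ?_, ?_⟩
  · refine ⟨hVp.comap_subtype, ?_, ?_⟩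
    · obtain ⟨x, hx, hne⟩ := gd_of_br hβ1
      refine ⟨⟨x, hCC hx⟩, ?_, hne⟩
      rw [Subgroup.mem_centralizer_iff]
      intro y hy
      apply Subtype.ext
      exact (Subgroup.mem_centralizer_iff.1 hx) y hy
    · intro Q hQ hQg
      have hcV : Nat.card (V.subgroupOf (Cu w)) = Nat.card V :=
        Nat.card_congr (Subgroup.subgroupOfEquivOfLe hVC).toEquiv
      have hcQ : Nat.card (Q.map (Cu w).subtype) = Nat.card Q :=
        Subgroup.card_map_of_injective (Cu w).subtype_injective
      rw [hcV, ← hcQ]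
      apply htp.mx _ (hQ.map _)
      by_contra hcon
      apply br_ne hQg
      have h1 : br Q (fun t : Cu w => e t) = 0 := by
        funext s
        by_cases hs : s ∈ Subgroup.centralizer (Q : Set (Cu w))
        · rw [H66.br_of_mem hs]
          by_contra h
          apply hcon
          refine ⟨s, ?_, h⟩
          rw [Subgroup.mem_centralizer_iff]
          intro y hy
          obtain ⟨q, hq, rfl⟩ := hy
          exact congrArg Subtype.val (Subgroup.mem_centralizer_iff.1 hs q hq)
        · exact H66.br_of_not_mem hs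
      have h2 : IsCl (fun t : Cu w => e t) := by
        intro x y
        exact hblk.1.1 _ _
      rw [← heβ, H66.br_mulF hF hQ (H66.IsCl.inv h2 Q) (H66.IsCl.inv hβ.blk.1.1 Q), h1,
        H75.mulF_zero_left]
  · intro β' hβ'
    have hb' : Bx (Cu w) β' := hβ'.bk.bx
    rcases hb'.dich hβ with h | h
    · exact h
    · exfalso
      apply hγ0
      have h1 : mulF (mulF (br V β') (br V β)) γ = 0 := by
        rw [← H66.br_mulF hF hVp (ix_inv hVC hb'.ix) (ix_inv hVC hβ.ix), h, H66.br_zero,
          H75.mulF_zero_left]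
      rw [H20.mulF_assoc, hβγ, hβ'.und] at h1
      exact h1
  · intro t ht
    rw [hstb, Subgroup.mem_inf] at ht
    obtain ⟨htN, htγ⟩ := ht
    have hcj : (fun x => β (t⁻¹ * x * t)) = H75.cj t β := rfl
    have hmem : ∀ x, x ∈ Cu (t * w * t⁻¹) ↔ t⁻¹ * x * t ∈ Cu w := by
      intro x
      rw [mem_cu, mem_cu]
      constructor
      · intro h
        calc w * (t⁻¹ * x * t) = t⁻¹ * ((t * w * t⁻¹) * x) * t := by group
          _ = t⁻¹ * (x * (t * w * t⁻¹)) * t := by rw [h]
          _ = t⁻¹ * x * t * w := by group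
      · intro h
        calc t * w * t⁻¹ * x = t * (w * (t⁻¹ * x * t)) * t⁻¹ := by group
          _ = t * (t⁻¹ * x * t * w) * t⁻¹ := by rw [h]
          _ = x * (t * w * t⁻¹) := by group
    refine ⟨⟨?_, ?_⟩, ?_⟩
    · intro x hx
      exact hβs _ (fun h => hx ((hmem x).2 h))
    · have φ : ∃ φ : Cu (t * w * t⁻¹) ≃* Cu w, ∀ x, ((φ x : Cu w) : G) = t⁻¹ * x * t := by
        refine ⟨MulEquiv.mk' ⟨fun x => ⟨t⁻¹ * x * t, (hmem _).1 x.2⟩,
          fun y => ⟨t * y * t⁻¹, (hmem _).2 ?_⟩, ?_, ?_⟩ ?_, ?_⟩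
        · have h1 : t⁻¹ * (t * (y : G) * t⁻¹) * t = y := by group
          rw [h1]
          exact y.2
        · intro x
          apply Subtype.ext
          show t * (t⁻¹ * (x : G) * t) * t⁻¹ = x
          group
        · intro x
          apply Subtype.ext
          show t⁻¹ * (t * (x : G) * t⁻¹) * t = x
          group
        · intro x y
          apply Subtype.ext
          show t⁻¹ * ((x : G) * y) * t = t⁻¹ * x * t * (t⁻¹ * y * t)
          group
        · intro x
          rfl
      obtain ⟨φ, hφ⟩ := φ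
      have h1 := Pool.Agent.PP.H60.isBlk_comp φ hβ.blk
      have h2 : (fun x : Cu (t * w * t⁻¹) => (fun s : Cu w => β s) (φ x)) =
          fun x : Cu (t * w * t⁻¹) => β (t⁻¹ * x * t) := by
        funext x
        show β (φ x) = _
        rw [hφ]
      rw [h2] at h1
      exact h1
    · have h1 : br V (fun x => β (t⁻¹ * x * t)) = H75.cj t (br V β) := by
        funext x
        have hx' : t⁻¹ * x * t ∈ Subgroup.centralizer (V : Set G) ↔
            x ∈ Subgroup.centralizer (V : Set G) := by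
          have hconj : ∀ n ∈ Subgroup.normalizer (V : Set G), ∀ x ∈ Subgroup.centralizer (V : Set G),
              n * x * n⁻¹ ∈ Subgroup.centralizer (V : Set G) := by
            intro n hn x hx
            rw [Subgroup.mem_centralizer_iff] at hx ⊢
            intro q hq
            have h1 : n⁻¹ * q * n ∈ V := by
              have h2 := (Subgroup.mem_normalizer_iff.1 (Subgroup.inv_mem _ hn) q).1 hq
              rwa [inv_inv] at h2
            have h2 := hx _ h1
            calc q * (n * x * n⁻¹) = n * ((n⁻¹ * q * n) * x) * n⁻¹ := by group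
              _ = n * (x * (n⁻¹ * q * n)) * n⁻¹ := by rw [h2]
              _ = (n * x * n⁻¹) * q := by group
          constructor
          · intro h
            have h2 := hconj t htN _ h
            have h3 : t * (t⁻¹ * x * t) * t⁻¹ = x := by group
            rwa [h3] at h2
          · intro h
            have h2 := hconj t⁻¹ (Subgroup.inv_mem _ htN) _ h
            rwa [inv_inv] at h2
        show _ = br V β (t⁻¹ * x * t)
        by_cases hx : x ∈ Subgroup.centralizer (V : Set G)
        · rw [H66.br_of_mem hx, H66.br_of_mem (hx'.2 hx)]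
        · rw [H66.br_of_not_mem hx, H66.br_of_not_mem (fun h => hx (hx'.1 h))]
      have h2 : H75.cj t γ = γ := (H75.cj_eq_iff _ _).2 (fun x => htγ x)
      rw [h1]
      calc mulF (H75.cj t (br V β)) γ = mulF (H75.cj t (br V β)) (H75.cj t γ) := by rw [h2]
        _ = γ := by rw [← H75.cj_mulF, hβγ, h2]

end Pool.Agent.PP.C2.H11
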